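import Pool.Agent.N41.RM.CLaw
import Pool.Agent.N41.RM.Frob
import Pool.Agent.H126R3.SumQ

/-!
# The ordinates of the critical zeros of the Artin L-functions of a Galois extension from prime sums

Let `K/ℚ` be a finite Galois extension with group `G`, `S` a finite set of primes containing the ramified
ones, `Frob_p` a Frobenius element at the prime `p` outside of `S`, and `χ` an irreducible character of `G`.
The Artin L-function is the meromorphic continuation (Artin, Brauer) of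

`L(s, χ) = exp ∑_{p ∉ S} ∑_{k ≥ 1} χ(Frob_p^k) / (k p^{ks})`, `Re s > 1`;

the factors at `S`, left out here, have no zeros and no poles on the critical line.  For real `t` and
`γ > π/2` the sum

`W_χ(t,T) = ∑_{p ∉ S} ∑_{k ≥ 1} χ(Frob_p^k) / (k p^{k(1/2 + it)}) · exp(iγ k log p / T) / Γ(1 + k log p / T)`

converges absolutely for every `T > 0`.  We prove, without any hypothesis on the zeros and poles,

`W_χ(t,T) = -n (log T - Λ_γ) + ℓ + O(1/T)`,

where `n` is the order of `L(s, χ)` at `1/2 + it` and `exp ℓ` the leading coefficient.  So the multiset `Γ_K`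
of the positive ordinates of the critical zeros of all the `L(s, χ)`, `χ` irreducible, is read off the
limits of `-Re W_χ(t,T) / log T`, and the assertion of the problem for `K` (every value occurs once, the
values are linearly independent over `ℚ`) is equivalent to the following one, which involves only
Frobenius elements: the limits are at most `1` for all irreducible `χ` and all `t > 0`, and the `t`, listed
over all the pairs `(χ, t)` with the limit `1`, are linearly independent over `ℚ`.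
-/

set_option autoImplicit false

namespace Pool.Agent.Results.MP_0f5a55_nt.ArtinOrdinatesFromPrimes

open Complex Filter Topology NumberField

/-- The irreducible complex characters of `G`. -/
def Irr (G : Type) [Group G] : Set (G → ℂ) :=
  {χ | ∃ V : FDRep ℂ G, CategoryTheory.Simple V ∧ V.character = χ}

/-- `σ` is a Frobenius element at `p`: for some prime `Q` of the ring of integers above `p` we have
`σ x = x ^ p` modulo `Q` for all integers `x`. -/
def IsFrobenius (K : Type) [Field K] [NumberField K] (p : ℕ) (σ : K ≃ₐ[ℚ] K) : Prop :=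
  ∃ Q : Ideal (𝓞 K), Q.IsPrime ∧ (p : 𝓞 K) ∈ Q ∧
    ∀ x y : 𝓞 K, (y : K) = σ (x : K) - (x : K) ^ p → y ∈ Q

open Classical in
/-- The term of the logarithm of the Euler product for the prime `p = x.1` and the exponent
`k = x.2 + 1`: it is `χ(Frob_p^k) / (k p^{ks})` for `p ∉ S`. -/
noncomputable def logTerm {G : Type} [Group G] (frob : Nat.Primes → G) (S : Finset Nat.Primes)
    (χ : G → ℂ) (s : ℂ) (x : Nat.Primes × ℕ) : ℂ :=
  if x.1 ∈ S then 0 else
    χ (frob x.1 ^ (x.2 + 1)) / ((x.2 + 1) * (((x.1 : ℕ) ^ (x.2 + 1) : ℕ) : ℂ) ^ s)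

/-- `L` is the meromorphic continuation of the Artin L-function of `χ` without the factors at `S`. -/
def IsArtinL {G : Type} [Group G] (frob : Nat.Primes → G) (S : Finset Nat.Primes) (χ : G → ℂ)
    (L : ℂ → ℂ) : Prop :=
  (∀ s, MeromorphicAt L s) ∧ ∀ s : ℂ, 1 < s.re → L s = cexp (∑' x, logTerm frob S χ s x)

/-- The term of `W_χ(t,T)`. -/
noncomputable def term {G : Type} [Group G] (frob : Nat.Primes → G) (S : Finset Nat.Primes)
    (χ : G → ℂ) (γ t T : ℝ) (x : Nat.Primes × ℕ) : ℂ :=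
  logTerm frob S χ (1 / 2 + t * I) x *
    (cexp ((γ * ((x.2 + 1) * Real.log (x.1 : ℕ) / T) : ℝ) * I) /
      (Real.Gamma (1 + (x.2 + 1) * Real.log (x.1 : ℕ) / T) : ℂ))

/-- `W_χ(t,T)`. -/
noncomputable def W {G : Type} [Group G] (frob : Nat.Primes → G) (S : Finset Nat.Primes)
    (χ : G → ℂ) (γ t T : ℝ) : ℂ := ∑' x : Nat.Primes × ℕ, term frob S χ γ t T x

/-- `Λ_γ = ∫_0^∞ (e^{-u} - e^{iγu} / Γ(1 + u)) du / u`. -/
noncomputable def Lam (γ : ℝ) : ℂ := ∫ u in Set.Ioi (0 : ℝ),
  (cexp (-(u : ℂ)) - cexp ((γ * u : ℝ) * I) * ((Real.Gamma (1 + u))⁻¹ : ℝ)) / u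

/-- The assertion of the problem for the L-functions `L χ`: the critical zeros with positive ordinate are
simple, and their ordinates, listed over all the pairs of an irreducible character and an ordinate, are
linearly independent over `ℚ`. -/
def IndependentOrdinates {G : Type} [Group G] (L : (G → ℂ) → ℂ → ℂ) : Prop :=
  (∀ χ ∈ Irr G, ∀ t : ℝ, 0 < t → meromorphicOrderAt (L χ) (1 / 2 + t * I) ≤ 1) ∧
    LinearIndependent ℚ (fun p : {p : (G → ℂ) × ℝ //
      p.1 ∈ Irr G ∧ 0 < p.2 ∧ 0 < meromorphicOrderAt (L p.1) (1 / 2 + p.2 * I)} => p.1.2)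

section proof

open Pool.Agent.N41.RM
open Pool.Agent.H126R3 (Qc Qc_pos Qc_rpow summable_Q)

variable {G : Type} [Group G] {frob : Nat.Primes → G} {S : Finset Nat.Primes} {χ : G → ℂ}

/-- the frequencies -/
noncomputable def lam (x : Nat.Primes × ℕ) : ℝ := (x.2 + 1) * Real.log (x.1 : ℕ)

open Classical in
/-- the coefficients -/
noncomputable def co (frob : Nat.Primes → G) (S : Finset Nat.Primes) (χ : G → ℂ)
    (x : Nat.Primes × ℕ) : ℂ := if x.1 ∈ S then 0 else χ (frob x.1 ^ (x.2 + 1)) / (x.2 + 1)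

lemma lam_nonneg (x : Nat.Primes × ℕ) : 0 ≤ lam x := by
  unfold lam
  have := Real.log_natCast_nonneg (x.1 : ℕ)
  positivity

lemma exp_lam (s : ℂ) (x : Nat.Primes × ℕ) :
    cexp (-(s * lam x)) = ((((x.1 : ℕ) ^ (x.2 + 1) : ℕ) : ℂ) ^ s)⁻¹ := by
  have h0 : (((x.1 : ℕ) ^ (x.2 + 1) : ℕ) : ℂ) ≠ 0 :=
    Nat.cast_ne_zero.2 (pow_ne_zero _ x.1.2.ne_zero)
  rw [← Complex.cpow_neg, Complex.cpow_def_of_ne_zero h0, ← Complex.natCast_log]
  congr 1
  unfold lam
  push_cast
  rw [Real.log_pow]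
  push_cast
  ring

lemma logTerm_eq (s : ℂ) (x : Nat.Primes × ℕ) :
    logTerm frob S χ s x = co frob S χ x * cexp (-(s * lam x)) := by
  rw [exp_lam]
  unfold logTerm co
  split_ifs
  · rw [zero_mul]
  · rw [div_mul_eq_div_div, div_eq_mul_inv _ ((((x.1 : ℕ) ^ (x.2 + 1) : ℕ) : ℂ) ^ s)]

lemma summable_co [Finite G] {σ : ℝ} (hσ : 1 < σ) :
    Summable fun x => ‖co frob S χ x‖ * Real.exp (-(σ * lam x)) := by
  classical
  have := Fintype.ofFinite G
  have hC : ∀ g, ‖χ g‖ ≤ ∑ g, ‖χ g‖ := fun g =>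
    Finset.single_le_sum (fun _ _ => norm_nonneg _) (Finset.mem_univ g)
  refine Summable.of_nonneg_of_le (fun x => by positivity) (fun x => ?_)
    ((summable_Q σ (by linarith) 0 (by push_cast; linarith)).mul_left (∑ g, ‖χ g‖))
  rw [if_pos (Nat.zero_le _)]
  have h1 : Real.exp (-(σ * lam x)) = (Qc x : ℝ) ^ (-σ) := by
    have hp : (0 : ℝ) < ((x.1 : ℕ) : ℝ) := by exact_mod_cast x.1.2.pos
    rw [Qc_rpow, Real.rpow_def_of_pos hp]
    unfold lam
    congr 1
    push_cast
    ring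
  rw [h1]
  refine mul_le_mul_of_nonneg_right ?_ (by positivity)
  unfold co
  split_ifs
  · rw [norm_zero]
    exact Finset.sum_nonneg fun _ _ => norm_nonneg _
  · have h2 : ((x.2 : ℂ) + 1) = ((x.2 + 1 : ℕ) : ℂ) := by push_cast; rfl
    rw [h2, norm_div, Complex.norm_natCast]
    refine (div_le_self (norm_nonneg _) ?_).trans (hC _)
    push_cast
    have : (0 : ℝ) ≤ x.2 := Nat.cast_nonneg _
    linarith

lemma term_eq (γ t T : ℝ) (x : Nat.Primes × ℕ) : term frob S χ γ t T x =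
    ptc lam (co frob S χ) (1 / 2 + t * I) x * cexp ((γ * (lam x / T) : ℝ) * I) *
      (Pool.Agent.W189.ML.om (lam x / T) : ℂ) := by
  unfold term ptc Pool.Agent.W189.ML.om
  rw [logTerm_eq]
  have h2 : lam x = (x.2 + 1) * Real.log (x.1 : ℕ) := rfl
  rw [h2]
  push_cast
  ring

lemma summ [Finite G] (γ t : ℝ) {T : ℝ} (hT : 0 < T) :
    Summable fun x => ‖term frob S χ γ t T x‖ := by
  refine Summable.of_nonneg_of_le (fun x => norm_nonneg _) (fun x => ?_)
    ((summable_co (frob := frob) (S := S) (χ := χ) (σ := 1 / 2 + 1) (by norm_num)).mul_left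
      (Real.exp (Real.exp (1 * T)) + 1))
  rw [term_eq, norm_mul, norm_mul, Complex.norm_exp_ofReal_mul_I, mul_one,
    Complex.norm_real, Real.norm_eq_abs]
  have hv : 0 ≤ lam x / T := div_nonneg (lam_nonneg x) hT.le
  have h1 := Pool.Agent.W189.ML.om_le (a := 1 * T) (v := lam x / T) (by positivity) hv
  have h2 : 1 * T * (lam x / T) = 1 * lam x := by field_simp
  rw [h2] at h1
  have h3 : 0 ≤ Pool.Agent.W189.ML.om (lam x / T) := Pool.Agent.W189.ML.om_nonneg hv
  rw [abs_of_nonneg h3]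
  have h4 : ‖ptc lam (co frob S χ) (1 / 2 + t * I) x‖ =
      ‖co frob S χ x‖ * Real.exp (-(1 / 2 * lam x)) := by
    unfold ptc
    rw [norm_mul, norm_expo]
    have : ((1 / 2 + t * I : ℂ)).re = 1 / 2 := by simp
    rw [this]
  have h5 : Real.exp (-((1 / 2 + 1) * lam x)) =
      Real.exp (-(1 / 2 * lam x)) * Real.exp (-(1 * lam x)) := by
    rw [← Real.exp_add]; congr 1; ring
  rw [h5, h4]
  calc ‖co frob S χ x‖ * Real.exp (-(1 / 2 * lam x)) * Pool.Agent.W189.ML.om (lam x / T)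
      ≤ (‖co frob S χ x‖ * Real.exp (-(1 / 2 * lam x))) * ((Real.exp (Real.exp (1 * T)) + 1) *
        Real.exp (-(1 * lam x))) := by gcongr
    _ = _ := by ring

lemma law [Finite G] {L : ℂ → ℂ} (hL : IsArtinL frob S χ L) (t : ℝ) {γ : ℝ}
    (hγ : Real.pi / 2 < γ) :
    ∃ (n : ℤ) (ℓ : ℂ), meromorphicOrderAt L (1 / 2 + t * I) = n ∧
      cexp ℓ = meromorphicTrailingCoeffAt L (1 / 2 + t * I) ∧
      (fun T : ℝ => W frob S χ γ t T - (-n * (Real.log T - Lam γ) + ℓ))
        =O[atTop] (fun T : ℝ => 1 / T) := by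
  obtain ⟨n, ℓ, h1, h2, h3⟩ := law_point (A := 1) (lam := lam) (c := co frob S χ) (F := L)
    lam_nonneg (fun σ hσ => summable_co hσ) (1 / 2 + t * I) (fun x _ => hL.1 _)
    (fun z hz => by
      rw [hL.2 z hz]
      congr 1
      unfold zser
      exact tsum_congr fun x => logTerm_eq z x) hγ
  refine ⟨n, ℓ, h1, h2, h3.congr_left fun T => ?_⟩
  have hLam : Lam γ = Pool.Agent.W187.UR.Lam γ := rfl
  rw [hLam]
  congr 1
  unfold zmean W
  exact tsum_congr fun x => (term_eq γ t T x).symm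

lemma lim [Finite G] {L : ℂ → ℂ} (hL : IsArtinL frob S χ L) (t : ℝ) {γ : ℝ}
    (hγ : Real.pi / 2 < γ) : ∃ n : ℤ, meromorphicOrderAt L (1 / 2 + t * I) = n ∧
      Tendsto (fun T : ℝ => -(W frob S χ γ t T).re / Real.log T) atTop (𝓝 n) := by
  obtain ⟨n, ℓ, h1, -, h3⟩ := law hL t hγ
  refine ⟨n, h1, ?_⟩
  have h0 : Tendsto (fun T : ℝ => W frob S χ γ t T - (-n * (Real.log T - Lam γ) + ℓ)) atTop
      (𝓝 0) := by
    refine h3.trans_tendsto ?_
    exact tendsto_const_nhds.div_atTop tendsto_id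
  set E : ℝ → ℂ := fun T : ℝ => W frob S χ γ t T - (-n * (Real.log T - Lam γ) + ℓ) with hE
  have hre0 : Tendsto (fun T => (E T).re) atTop (𝓝 0) := by
    have := (Complex.continuous_re.tendsto 0).comp h0
    simpa [Function.comp_def] using this
  have hre : ∀ T, (W frob S χ γ t T).re = (E T).re + (n * (Lam γ).re + ℓ.re) - n * Real.log T := by
    intro T
    rw [hE]
    simp
    ring
  have h2 := (((hre0.add_const (n * (Lam γ).re + ℓ.re)).neg).div_atTop
    Real.tendsto_log_atTop).add_const (n : ℝ)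
  rw [zero_add] at h2
  refine h2.congr' ?_
  filter_upwards [eventually_gt_atTop 1] with T hT
  have hlog : Real.log T ≠ 0 := (Real.log_pos hT).ne'
  rw [hre]
  field_simp
  ring

lemma lin_congr {α : Type} {P Q : α × ℝ → Prop} (h : P = Q) :
    LinearIndependent ℚ (fun p : {p : α × ℝ // P p} => p.1.2) ↔
      LinearIndependent ℚ (fun p : {p : α × ℝ // Q p} => p.1.2) := by
  subst h
  exact Iff.rfl

end proof

/-- **The ordinates from Frobenius elements.**  Let `K/ℚ` be a finite Galois extension with group `G`, `S` a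
finite set of primes containing the ramified ones, `frob p` a Frobenius element at every `p ∉ S`, for
every irreducible character `χ` let `L χ` be the Artin L-function without the factors at `S`, and
`γ > π/2`.  Then

* `W_χ(t,T)` converges absolutely for all real `t` and `T > 0`;
* `W_χ(t,T) = -n (log T - Λ_γ) + ℓ + O(1/T)`, `n` the order of `L χ` at `1/2 + it`, `exp ℓ` the leading
  coefficient; so `-Re W_χ(t,T) / log T → n`;
* the assertion of the problem for `K` is equivalent to: the limit of `-Re W_χ(t,T) / log T` is at most `1`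
  for all irreducible `χ` and `t > 0`, and the `t`, listed over all the pairs `(χ, t)` with limit `1`, are
  linearly independent over `ℚ`. -/
theorem result (K : Type) [Field K] [NumberField K] [IsGalois ℚ K] (S : Finset Nat.Primes)
    (_hS : ∀ p : Nat.Primes, ((p : ℕ) : ℤ) ∣ NumberField.discr K → p ∈ S)
    (frob : Nat.Primes → (K ≃ₐ[ℚ] K)) (_hfrob : ∀ p ∉ S, IsFrobenius K p (frob p))
    (L : ((K ≃ₐ[ℚ] K) → ℂ) → ℂ → ℂ) (hL : ∀ χ ∈ Irr (K ≃ₐ[ℚ] K), IsArtinL frob S χ (L χ))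
    (γ : ℝ) (hγ : Real.pi / 2 < γ) :
    (∀ χ ∈ Irr (K ≃ₐ[ℚ] K), ∀ t T : ℝ, 0 < T → Summable fun x => ‖term frob S χ γ t T x‖) ∧
    (∀ χ ∈ Irr (K ≃ₐ[ℚ] K), ∀ t : ℝ, ∃ (n : ℤ) (ℓ : ℂ),
      meromorphicOrderAt (L χ) (1 / 2 + t * I) = n ∧
      cexp ℓ = meromorphicTrailingCoeffAt (L χ) (1 / 2 + t * I) ∧
      (fun T : ℝ => W frob S χ γ t T - (-n * (Real.log T - Lam γ) + ℓ))
        =O[atTop] (fun T : ℝ => 1 / T) ∧
      Tendsto (fun T : ℝ => -(W frob S χ γ t T).re / Real.log T) atTop (𝓝 n)) ∧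
    (IndependentOrdinates L ↔
      (∀ χ ∈ Irr (K ≃ₐ[ℚ] K), ∀ t : ℝ, 0 < t → ∃ n : ℤ, n ≤ 1 ∧
        Tendsto (fun T : ℝ => -(W frob S χ γ t T).re / Real.log T) atTop (𝓝 n)) ∧
      LinearIndependent ℚ (fun p : {p : ((K ≃ₐ[ℚ] K) → ℂ) × ℝ // p.1 ∈ Irr (K ≃ₐ[ℚ] K) ∧ 0 < p.2 ∧
        Tendsto (fun T : ℝ => -(W frob S p.1 γ p.2 T).re / Real.log T) atTop (𝓝 1)} =>
          p.1.2)) := by
  refine ⟨fun χ _ t T hT => summ γ t hT, fun χ hχ t => ?_, ?_⟩
  · obtain ⟨n, ℓ, h1, h2, h3⟩ := law (hL χ hχ) t hγ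
    obtain ⟨m, h4, h5⟩ := lim (hL χ hχ) t hγ
    rw [h1] at h4
    have h6 : n = m := by exact_mod_cast h4
    subst h6
    exact ⟨n, ℓ, h1, h2, h3, h5⟩
  · have hA : (∀ χ ∈ Irr (K ≃ₐ[ℚ] K), ∀ t : ℝ, 0 < t →
        meromorphicOrderAt (L χ) (1 / 2 + t * I) ≤ 1) ↔
        ∀ χ ∈ Irr (K ≃ₐ[ℚ] K), ∀ t : ℝ, 0 < t → ∃ n : ℤ, n ≤ 1 ∧
        Tendsto (fun T : ℝ => -(W frob S χ γ t T).re / Real.log T) atTop (𝓝 n) := by
      refine forall_congr' fun χ => forall_congr' fun hχ => forall_congr' fun t =>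
        forall_congr' fun _ => ?_
      obtain ⟨m, h4, h5⟩ := lim (hL χ hχ) t hγ
      rw [h4]
      constructor
      · intro h6
        exact ⟨m, by exact_mod_cast h6, h5⟩
      · rintro ⟨n, h6, h7⟩
        have h8 : (n : ℝ) = m := tendsto_nhds_unique h7 h5
        have h9 : n = m := by exact_mod_cast h8
        rw [← h9]
        exact_mod_cast h6
    unfold IndependentOrdinates
    rw [hA]
    refine and_congr_right fun h1 => ?_
    have hP : (fun p : ((K ≃ₐ[ℚ] K) → ℂ) × ℝ => p.1 ∈ Irr (K ≃ₐ[ℚ] K) ∧ 0 < p.2 ∧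
        0 < meromorphicOrderAt (L p.1) (1 / 2 + p.2 * I)) =
        fun p => p.1 ∈ Irr (K ≃ₐ[ℚ] K) ∧ 0 < p.2 ∧
        Tendsto (fun T : ℝ => -(W frob S p.1 γ p.2 T).re / Real.log T) atTop (𝓝 1) := by
      funext p
      refine propext (and_congr_right fun hχ => and_congr_right fun ht => ?_)
      obtain ⟨m, h4, h5⟩ := lim (hL p.1 hχ) p.2 hγ
      obtain ⟨n, h6, h7⟩ := h1 p.1 hχ p.2 ht
      have h8 : (n : ℝ) = m := tendsto_nhds_unique h7 h5
      have h9 : n = m := by exact_mod_cast h8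
      subst h9
      rw [h4]
      constructor
      · intro h10
        have h11 : 0 < n := by exact_mod_cast h10
        have h12 : n = 1 := by omega
        rw [h12, Int.cast_one] at h5
        exact h5
      · intro h10
        have h11 : (n : ℝ) = 1 := tendsto_nhds_unique h5 h10
        have h12 : n = 1 := by exact_mod_cast h11
        rw [h12]
        exact_mod_cast one_pos
    exact lin_congr hP

end Pool.Agent.Results.MP_0f5a55_nt.ArtinOrdinatesFromPrimes
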