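import Pool.Agent.N784.DU.Main
import Pool.Agent.N784.AD.Reg
import Pool.Agent.N784.AD.Every
import Pool.Agent.N784.AD.Rel

/-!
# The distinct zeros of all the L-functions of a ray class group together

If the zeros of the Artin L-functions of a Galois extension of `ℚ` are linearly independent, then no
two of these functions have a common zero on the critical line: the zeros of any set of them are all
different.  Without hypothesis it is hard to exclude that the zeros of most of them agree; the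
number of the distinct zeros of one of them is of course a lower bound for the number of the
distinct zeros of all together.

Let `K` be any number field of degree `n` and `𝔮` an ideal, and consider the L-functions `L(s, ψ)`
of the primitive (narrow) ray class characters `ψ` of `K` whose conductor divides `𝔮`: the Artin
L-functions of the characters of `Gal(K(𝔮)/K)`, and of the representations of `Gal(ℚ̄/ℚ)` of
dimension `n` which they induce (if `K/ℚ` is normal, irreducible ones, for the moduli below).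
One of them has about `(T / 2π) log (N(𝔮) T^n)` zeros with `T < Im s ≤ 2T`, at most.

We prove, without any hypothesis: if the units of `K` occupy at most `N(𝔮)^δ` of the residue classes
modulo `𝔮`, if `N(𝔮)^η ≤ T` and `(N(𝔮) T^n)^h ≤ N(𝔮)`, and if `E` contains all these `ψ` but at most
`N(𝔮)^(1-θ)`, then the functions `L(s, ψ)`, `ψ ∈ E`, have together at least
`((1 + θ) h - ε) (T / 2π) log (N(𝔮) T^n)` different zeros with `1/2 ≤ Re s < 1` and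
`T < Im s ≤ (2 + ε) T` (of two zeros symmetric to the critical line one is counted).  Here
`0 < θ ≤ 1`, `0 < ε < h ≤ 1` and `η > 0` are arbitrary.  For `θ = 1` and `h` near `1` this is twice
the number of zeros of one L-function.

Proof.  The average of the `L'/L(s, ψ)` over `ψ ∈ E` has a pole, with a small residue, at the zeros
of the union, and the sum of the residues is as large as for one function.  With Fejér and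
Montgomery-Taylor kernels this gives the number of different zeros, if the mean square of the
averaged prime sum is small for the primes up to `N(𝔮)^(1+θ)`.  The averaged coefficient of a prime
ideal is `1` in the trivial class and otherwise small, up to the contribution of the missing `ψ`,
for which there is the large sieve inequality with the pairs of prime ideals in the same class;
the elements of the trivial class, and the pairs, are counted with the geometry of numbers; the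
small primes are treated with the mean value over `T`.
-/

set_option autoImplicit false

open NumberField

namespace Pool.Agent.Results.MP_0f5a55_nt.DistinctZerosOfUnions

section chars

variable {K : Type} [Field K] [NumberField K]

/-- `x` is totally positive -/
def TotPos (x : 𝓞 K) : Prop := ∀ τ : K →+* ℝ, 0 < τ (x : K)

/-- `ψ` is a primitive ray class character of conductor `𝔣` (times some real places), as a
completely multiplicative function on the ideals, zero on the ideals not prime to `𝔣`. -/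
structure IsPrimitive (𝔣 : Ideal (𝓞 K)) (ψ : Ideal (𝓞 K) →*₀ ℂ) : Prop where
  ne_bot : 𝔣 ≠ ⊥
  supp : ∀ 𝔞 : Ideal (𝓞 K), 𝔞 ≠ ⊥ → (ψ 𝔞 ≠ 0 ↔ IsCoprime 𝔞 𝔣)
  ray : ∀ x : 𝓞 K, x ≠ 0 → x - 1 ∈ 𝔣 → TotPos x → ψ (Ideal.span {x}) = 1
  prim : ∀ 𝔤 : Ideal (𝓞 K), 𝔤 ∣ 𝔣 → 𝔤 ≠ 𝔣 →
    ∃ x : 𝓞 K, x - 1 ∈ 𝔤 ∧ TotPos x ∧ IsCoprime (Ideal.span {x}) 𝔣 ∧ ψ (Ideal.span {x}) ≠ 1

/-- the primitive ray class characters whose (finite) conductor divides `𝔮` and is not `(1)` -/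
def family (𝔮 : Ideal (𝓞 K)) : Set (Ideal (𝓞 K) →*₀ ℂ) :=
  {ψ | ∃ 𝔣 : Ideal (𝓞 K), 𝔣 ∣ 𝔮 ∧ 𝔣 ≠ ⊤ ∧ IsPrimitive 𝔣 ψ}

/-- `χ` is a (not necessarily primitive) character of the narrow ray class group modulo `𝔮` -/
structure IsRayClassChar (𝔮 : Ideal (𝓞 K)) (χ : Ideal (𝓞 K) →*₀ ℂ) : Prop where
  supp : ∀ 𝔞 : Ideal (𝓞 K), 𝔞 ≠ ⊥ → (χ 𝔞 ≠ 0 ↔ IsCoprime 𝔞 𝔮)
  ray : ∀ x : 𝓞 K, x ≠ 0 → x - 1 ∈ 𝔮 → TotPos x → χ (Ideal.span {x}) = 1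

/-- `F` is the entire function `L(s, ψ)`, given by its Euler product (over the prime ideals of `K`)
for `Re s > 1` -/
def IsL (ψ : Ideal (𝓞 K) →*₀ ℂ) (F : ℂ → ℂ) : Prop :=
  Differentiable ℂ F ∧ ∀ s : ℂ, 1 < s.re →
    HasProd (fun 𝔭 : {𝔭 : Ideal (𝓞 K) // Prime 𝔭} =>
      (1 - ψ 𝔭 * ((Ideal.absNorm (𝔭 : Ideal (𝓞 K)) : ℕ) : ℂ) ^ (-s))⁻¹) (F s)

/-- the number of residue classes modulo `𝔮` which contain a unit of `K` -/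
noncomputable def unitClasses (𝔮 : Ideal (𝓞 K)) : ℕ :=
  (Set.range (fun u : (𝓞 K)ˣ => Ideal.Quotient.mk 𝔮 (u : 𝓞 K))).ncard

/-- `𝔮` is a product of prime ideals of degree one above different rational primes `p > B` -/
structure IsSplit (𝔮 : Ideal (𝓞 K)) (B : ℝ) : Prop where
  ne_bot : 𝔮 ≠ ⊥
  squarefree : Squarefree 𝔮
  prime : ∀ 𝔭 : Ideal (𝓞 K), Prime 𝔭 → 𝔭 ∣ 𝔮 → (Ideal.absNorm 𝔭).Prime ∧
    B < (Ideal.absNorm 𝔭 : ℝ)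
  inj : ∀ 𝔭 𝔭' : Ideal (𝓞 K), Prime 𝔭 → Prime 𝔭' → 𝔭 ∣ 𝔮 → 𝔭' ∣ 𝔮 →
    Ideal.absNorm 𝔭 = Ideal.absNorm 𝔭' → 𝔭 = 𝔭'

/-- the image of an ideal under an automorphism of `K` -/
noncomputable def conj (σ : K ≃+* K) (𝔞 : Ideal (𝓞 K)) : Ideal (𝓞 K) :=
  𝔞.map (RingOfIntegers.mapRingEquiv σ : 𝓞 K →+* 𝓞 K)

end chars

section artin

variable {k : Type} [Field k] [NumberField k] {E : Type} [Field E] [NumberField E] [Algebra k E]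
  {V : Type} [AddCommGroup V] [Module ℂ V]

/-- the inertia group of `P` in `Gal(E/k)` -/
def inertia (k : Type) [Field k] [NumberField k] [Algebra k E] (P : Ideal (𝓞 E)) :
    Set (E ≃ₐ[k] E) :=
  {τ | ∀ x y : 𝓞 E, (y : E) = τ (x : E) → y - x ∈ P}

/-- `σ` is a Frobenius element at the prime ideal `P` above `𝔭`: `σ x ≡ x^(N𝔭) mod P`. -/
def IsFrob (𝔭 : Ideal (𝓞 k)) (P : Ideal (𝓞 E)) (σ : E ≃ₐ[k] E) : Prop :=
  P.IsPrime ∧ (∀ x ∈ 𝔭, algebraMap (𝓞 k) (𝓞 E) x ∈ P) ∧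
    ∀ x y : 𝓞 E, (y : E) = σ (x : E) → y - x ^ (Ideal.absNorm 𝔭) ∈ P

/-- The projection of `V` onto the subspace of the vectors fixed by the inertia group of `P`. -/
noncomputable def invProj (ρ : Representation ℂ (E ≃ₐ[k] E) V) (P : Ideal (𝓞 E)) : V →ₗ[ℂ] V :=
  ((inertia k P).ncard : ℂ)⁻¹ • ∑ᶠ τ ∈ inertia k P, ρ τ

/-- `det(1 - x ρ(σ) | V^I)`, where `I` is the inertia group of `P`. -/
noncomputable def eulerPoly (ρ : Representation ℂ (E ≃ₐ[k] E) V) (P : Ideal (𝓞 E))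
    (σ : E ≃ₐ[k] E) (x : ℂ) : ℂ :=
  LinearMap.det (LinearMap.id - x • (ρ σ ∘ₗ invProj ρ P))

/-- `F` is the Artin L-function `L(s, ρ, E/k)`, and it is entire: for `Re s > 1` it is the product
of `det(1 - N𝔭^(-s) ρ(Frob_𝔭) | V^(I_𝔭))⁻¹` over all primes `𝔭` of `k` (for every choice of the
primes above the `𝔭` and of the Frobenius elements). -/
def IsArtinL (ρ : Representation ℂ (E ≃ₐ[k] E) V) (F : ℂ → ℂ) : Prop :=
  Differentiable ℂ F ∧ ∀ (P : {𝔭 : Ideal (𝓞 k) // Prime 𝔭} → Ideal (𝓞 E))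
    (σ : {𝔭 : Ideal (𝓞 k) // Prime 𝔭} → (E ≃ₐ[k] E)), (∀ 𝔭, IsFrob 𝔭.1 (P 𝔭) (σ 𝔭)) →
      ∀ s : ℂ, 1 < s.re → HasProd (fun 𝔭 : {𝔭 : Ideal (𝓞 k) // Prime 𝔭} =>
        (eulerPoly ρ (P 𝔭) (σ 𝔭) (((Ideal.absNorm (𝔭 : Ideal (𝓞 k)) : ℕ) : ℂ) ^ (-s)))⁻¹) (F s)

/-- `ρ` corresponds to `ψ`, a character of the ideals of the extension `K` of `k` (that is, `ρ` is
induced by `ψ`): the Euler polynomial of `ρ` at every prime `𝔭` of `k` is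
`∏_{𝔓 ∣ 𝔭} (1 - ψ(𝔓) x^f)`, the product being over the primes `𝔓` of `K` above `𝔭` and `f` being
the degree of `𝔓` over `𝔭`. -/
def Attached {K : Type} [Field K] [NumberField K] [Algebra k K] (ψ : Ideal (𝓞 K) →*₀ ℂ)
    (ρ : Representation ℂ (E ≃ₐ[k] E) V) : Prop :=
  ∀ 𝔭 : Ideal (𝓞 k), Prime 𝔭 → ∀ (P : Ideal (𝓞 E)) (σ : E ≃ₐ[k] E), IsFrob 𝔭 P σ →
    ∀ x : ℂ, eulerPoly ρ P σ x =
      ∏ᶠ 𝔓 ∈ {𝔓 : Ideal (𝓞 K) | 𝔓.IsPrime ∧ 𝔓.LiesOver 𝔭}, (1 - ψ 𝔓 * x ^ (𝔓.inertiaDeg (𝓞 k)))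

end artin

/-- The numbers `s` with `1/2 ≤ Re s < 1` and `T < Im s ≤ T'` at which one of the functions `L ψ`,
`ψ ∈ E`, is zero (every `s` is counted once). -/
def unionZeros {K : Type} [Field K] [NumberField K] (L : (Ideal (𝓞 K) →*₀ ℂ) → ℂ → ℂ)
    (E : Set (Ideal (𝓞 K) →*₀ ℂ)) (T T' : ℝ) : Set ℂ :=
  {s : ℂ | 1 / 2 ≤ s.re ∧ s.re < 1 ∧ T < s.im ∧ s.im ≤ T' ∧ ∃ ψ ∈ E, L ψ s = 0}

/-- For all `𝔮` of norm at least `X₀` for which the units occupy at most `N(𝔮)^δ` residue classes: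
the family is finite with at least `N(𝔮)^(1-ε)` members, and if `N(𝔮)^η ≤ T` and
`(N(𝔮) T^n)^h ≤ N(𝔮)`, then for every subset `E` which contains all but at most `N(𝔮)^(1-θ)` members
of the family the functions `L ψ`, `ψ ∈ E`, have together at least
`((1 + θ) h - ε) (T / 2π) log (N(𝔮) T^n)` distinct zeros with `1/2 ≤ Re s < 1` and
`T < Im s ≤ (2 + ε) T`. -/
def Holds (K : Type) [Field K] [NumberField K] (L : (Ideal (𝓞 K) →*₀ ℂ) → ℂ → ℂ)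
    (δ X₀ η h θ ε : ℝ) : Prop :=
  ∀ 𝔮 : Ideal (𝓞 K), 𝔮 ≠ ⊥ → X₀ ≤ (Ideal.absNorm 𝔮 : ℝ) →
    (unitClasses 𝔮 : ℝ) ≤ (Ideal.absNorm 𝔮 : ℝ) ^ δ →
    (family 𝔮).Finite ∧ (Ideal.absNorm 𝔮 : ℝ) ^ (1 - ε) ≤ ((family 𝔮).ncard : ℝ) ∧
    ∀ T : ℝ, (Ideal.absNorm 𝔮 : ℝ) ^ η ≤ T →
      ((Ideal.absNorm 𝔮 : ℝ) * T ^ Module.finrank ℚ K) ^ h ≤ (Ideal.absNorm 𝔮 : ℝ) →
      ∀ E : Set (Ideal (𝓞 K) →*₀ ℂ), E ⊆ family 𝔮 →
        ((family 𝔮 \ E).ncard : ℝ) ≤ (Ideal.absNorm 𝔮 : ℝ) ^ (1 - θ) →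
        (unionZeros L E T ((2 + ε) * T)).Finite ∧
        ((1 + θ) * h - ε) * (T / (2 * Real.pi) *
          Real.log ((Ideal.absNorm 𝔮 : ℝ) * T ^ Module.finrank ℚ K)) ≤
          ((unionZeros L E T ((2 + ε) * T)).ncard : ℝ)

/-! ### Auxiliary facts -/

section

variable {K : Type} [Field K] [NumberField K]

lemma prim_iff (𝔣 : Ideal (𝓞 K)) (ψ : Ideal (𝓞 K) →*₀ ℂ) :
    IsPrimitive 𝔣 ψ ↔ Pool.Agent.Y773.G.IsPrimChar K 𝔣 ψ :=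
  ⟨fun h => ⟨h.ne_bot, h.supp, h.ray, h.prim⟩, fun h => ⟨h.ne_bot, h.supp, h.ray, h.prim⟩⟩

lemma family_eq (𝔮 : Ideal (𝓞 K)) : family 𝔮 = Pool.Agent.Y773.IQ.Fam 𝔮 := by
  ext ψ
  constructor
  · rintro ⟨𝔣, h1, h2, h3⟩
    exact ⟨𝔣, h1, h2, (prim_iff 𝔣 ψ).mp h3⟩
  · rintro ⟨𝔣, h1, h2, h3⟩
    exact ⟨𝔣, h1, h2, (prim_iff 𝔣 ψ).mpr h3⟩

lemma family_top : family (⊤ : Ideal (𝓞 K)) = ∅ := by
  rw [Set.eq_empty_iff_forall_notMem]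
  rintro ψ ⟨𝔣, h1, h2, -⟩
  exact h2 (top_le_iff.mp (Ideal.dvd_iff_le.mp h1))

/-- the zeros -/
theorem holds_of (θ h ε η : ℝ) (hθ0 : 0 < θ) (hθ1 : θ ≤ 1) (hh : 0 < h) (hh1 : h ≤ 1)
    (hε : 0 < ε) (hεh : ε < h) (hη : 0 < η) :
    ∃ δ X₀ : ℝ, 0 < δ ∧ Holds K (Pool.Agent.Y773.IQ.LL K) δ X₀ η h θ ε := by
  classical
  obtain ⟨δ, X₀, hδ, hδ1, hX₀, H⟩ := Pool.Agent.N784.DU.mainU K θ h ε η hθ0 hθ1 hh hh1 hε hεh hη
  refine ⟨δ, X₀, hδ, ?_⟩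
  intro 𝔮 hbot hX hU
  obtain ⟨htop, hfin, hbig, H⟩ := H 𝔮 hbot hX hU
  rw [family_eq]
  refine ⟨hfin, hbig, ?_⟩
  intro T hT hTh E hE hEc
  have hEf : E.Finite := hfin.subset hE
  have hEm : ∀ ψ, ψ ∈ hEf.toFinset ↔ ψ ∈ E := fun ψ => Set.Finite.mem_toFinset hEf
  have hcard : ((Pool.Agent.Y773.IQ.Fam 𝔮).ncard : ℝ) - (hEf.toFinset.card : ℝ) ≤
      (Ideal.absNorm 𝔮 : ℝ) ^ (1 - θ) := by
    refine le_trans (le_of_eq ?_) hEc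
    rw [← Set.ncard_eq_toFinset_card _ hEf]
    have h1 := Set.ncard_sdiff_add_ncard_of_subset hE hfin
    have h2 : ((Pool.Agent.Y773.IQ.Fam 𝔮 \ E).ncard : ℝ) + (E.ncard : ℝ) =
      ((Pool.Agent.Y773.IQ.Fam 𝔮).ncard : ℝ) := by exact_mod_cast h1
    linarith
  obtain ⟨-, q1, q2⟩ := H T hT hTh hEf.toFinset (fun ψ hψ => hE ((hEm ψ).mp hψ)) hcard
  have hset : unionZeros (Pool.Agent.Y773.IQ.LL K) E T ((2 + ε) * T) =
      {x : ℂ | (∃ ψ ∈ hEf.toFinset, x ∈ H370.zset (Pool.Agent.Y773.IQ.LL K ψ) T ((2 + ε) * T)) ∧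
        1 / 2 ≤ x.re} := by
    ext x
    constructor
    · rintro ⟨h1, h2, h3, h4, ψ, h5, h6⟩
      exact ⟨⟨ψ, (hEm ψ).mpr h5, by linarith, h2, h3, h4, h6⟩, h1⟩
    · rintro ⟨⟨ψ, h5, h7, h2, h3, h4, h6⟩, h1⟩
      exact ⟨h1, h2, h3, h4, ψ, (hEm ψ).mp h5, h6⟩
  rw [hset]
  exact ⟨q1, q2⟩

/-- the L-functions -/
theorem isL_LL (𝔣 : Ideal (𝓞 K)) (ψ : Ideal (𝓞 K) →*₀ ℂ) (htop : 𝔣 ≠ ⊤) (hψ : IsPrimitive 𝔣 ψ) :
    IsL ψ (Pool.Agent.Y773.IQ.LL K ψ) ∧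
    ∀ (k : Type) [Field k] [NumberField k] [Algebra k K]
      (E : Type) [Field E] [NumberField E] [Algebra k E] [IsGalois k E]
      (V : Type) [AddCommGroup V] [Module ℂ V] [FiniteDimensional ℂ V]
      (ρ : Representation ℂ (E ≃ₐ[k] E) V), Attached ψ ρ →
        IsArtinL ρ (Pool.Agent.Y773.IQ.LL K ψ) := by
  obtain ⟨A, hA, hgood⟩ := Pool.Agent.Y773.IQ.good K
  have hp := (prim_iff 𝔣 ψ).mp hψ
  obtain ⟨F, hF, hFL, -⟩ := hgood 𝔣 ψ htop hp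
  rw [Pool.Agent.Y773.IQ.LL_eq K hF hFL]
  have hn := hp.norm_le_one Pool.Agent.Y772.G.t_sig
  refine ⟨⟨hF, ?_⟩, ?_⟩
  · intro s hs
    have h1 := (Pool.Agent.Y773.hasSum_log hn hs).cexp
    rw [← Pool.Agent.Y772.DK.LI_eq_exp ψ hn hs, ← hFL s hs] at h1
    refine h1.congr_fun fun 𝔭 => ?_
    have hz := Pool.Agent.Y773.norm_zz_lt hn hs 𝔭.2
    have hne : 1 - Pool.Agent.Y773.zz ψ s 𝔭.1 ≠ 0 := by
      intro h0
      have h5 : Pool.Agent.Y773.zz ψ s 𝔭.1 = 1 := (sub_eq_zero.mp h0).symm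
      rw [h5, norm_one] at hz
      exact lt_irrefl _ hz
    change _ = Complex.exp (-Complex.log (1 - Pool.Agent.Y773.zz ψ s 𝔭.1))
    rw [Complex.exp_neg, Complex.exp_log hne]
    rfl
  · intro k _ _ _ E _ _ _ _ V _ _ _ ρ hρ
    refine ⟨hF, fun P σ hσ s hs => ?_⟩
    rw [hFL s hs]
    refine (Pool.Agent.N784.AD.hasProd_rel k hn hs).congr_fun fun 𝔭 => ?_
    rw [hρ 𝔭.1 𝔭.2 (P 𝔭) (σ 𝔭) (hσ 𝔭)]
    rfl

/-- the characters of the narrow ray class group -/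
theorem chars (𝔮 : Ideal (𝓞 K)) (hbot : 𝔮 ≠ ⊥) : (family 𝔮).Finite ∧
    ∀ χ : Ideal (𝓞 K) →*₀ ℂ, IsRayClassChar 𝔮 χ →
      (∃ x : 𝓞 K, x ≠ 0 ∧ TotPos x ∧ IsCoprime (Ideal.span {x}) 𝔮 ∧ χ (Ideal.span {x}) ≠ 1) →
      ∃! ψ : Ideal (𝓞 K) →*₀ ℂ, ψ ∈ family 𝔮 ∧ ∀ 𝔞, IsCoprime 𝔞 𝔮 → ψ 𝔞 = χ 𝔞 := by
  by_cases htop : 𝔮 = ⊤
  · subst htop
    refine ⟨by rw [family_top]; exact Set.finite_empty, ?_⟩
    rintro χ hχ ⟨x, hx0, hxt, hx1, hx2⟩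
    exact absurd (hχ.ray x hx0 Submodule.mem_top hxt) hx2
  rw [family_eq]
  refine ⟨(Pool.Agent.N784.AD.Fam_finite hbot htop).1, ?_⟩
  rintro χ hχ ⟨x, hx0, hxt, hx1, hx2⟩
  have hne : ∀ y : Pool.Agent.Y767.Mq 𝔮, χ (y : Ideal (𝓞 K)) ≠ 0 := fun y =>
    (hχ.supp _ (Pool.Agent.Y767.Mq_ne_bot htop y)).mpr (Pool.Agent.Y767.Mq_cop y)
  have hval : ∀ y : Pool.Agent.Y767.Mq 𝔮,
      ((Pool.Agent.Y773.IQ.toM' χ hne y : ℂˣ) : ℂ) = χ (y : Ideal (𝓞 K)) := fun y => rfl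
  rcases Pool.Agent.N784.AD.exists_prim hbot htop (Pool.Agent.Y773.IQ.toM' χ hne) (by
    intro y
    ext
    rw [hval, Pool.Agent.N784.AD.pi1_coe, Units.val_one]
    exact hχ.ray y (Pool.Agent.Y773.IQ.ne_zero_of_cop htop (Pool.Agent.N784.AD.T1_cop y))
      (Pool.Agent.N784.AD.T1_one y) (Pool.Agent.N784.AD.T1_tp y))
    with h | ⟨𝔣, ψ, h1, h2, h3, h4⟩
  · exfalso
    apply hx2
    exact congrArg (fun u : ℂˣ => (u : ℂ)) (h x hx1 hxt)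
  · refine ⟨ψ, ⟨⟨𝔣, h1, h2, h3⟩, fun 𝔞 h𝔞 => h4 ⟨𝔞, h𝔞⟩⟩, ?_⟩
    rintro ψ' ⟨⟨𝔣', h1', h2', h3'⟩, h4'⟩
    refine (Pool.Agent.N784.AD.prim_unique hbot h3' h3 h1' h1 h2' h2 fun 𝔞 h𝔞 => ?_).2
    rw [h4' 𝔞 h𝔞]
    exact (h4 ⟨𝔞, h𝔞⟩).symm

/-- the moduli -/
theorem moduli (δ B : ℝ) (hδ : 0 < δ) : ∃ 𝔮 : Ideal (𝓞 K), IsSplit 𝔮 B ∧
    B ≤ (Ideal.absNorm 𝔮 : ℝ) ∧ (unitClasses 𝔮 : ℝ) ≤ (Ideal.absNorm 𝔮 : ℝ) ^ δ ∧
    ∀ ψ ∈ family 𝔮, ∀ σ : K ≃+* K, σ ≠ RingEquiv.refl K →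
      ∃ 𝔞 : Ideal (𝓞 K), ψ (conj σ 𝔞) ≠ ψ 𝔞 := by
  obtain ⟨B', hB'⟩ := Pool.Agent.N784.AD.reg K
  obtain ⟨𝔮, h1, h2, h3⟩ := Pool.Agent.N784.AD.exists_mod K δ (max B B') hδ
  refine ⟨𝔮, ⟨h1.ne_bot, h1.sqf, fun 𝔭 h4 h5 => ?_, h1.inj⟩, (le_max_left _ _).trans h2, h3, ?_⟩
  · obtain ⟨h6, h7⟩ := h1.prime 𝔭 h4 h5
    exact ⟨h6, lt_of_le_of_lt (le_max_left _ _) h7⟩
  · intro ψ hψ σ hσ
    rw [family_eq] at hψ
    refine hB' 𝔮 ⟨h1.ne_bot, h1.sqf, fun 𝔭 h4 h5 => ?_, h1.inj⟩ ψ hψ σ hσ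
    obtain ⟨h6, h7⟩ := h1.prime 𝔭 h4 h5
    exact ⟨h6, lt_of_le_of_lt (le_max_right _ _) h7⟩

end

/-- **Main theorem.** -/
theorem result :
    -- there are normal fields of every degree
    (∀ n : ℕ, 1 ≤ n → ∃ (K : Type) (_ : Field K) (_ : NumberField K),
      IsGalois ℚ K ∧ Module.finrank ℚ K = n) ∧
    ∀ (K : Type) [Field K] [NumberField K],
    ∃ L : (Ideal (𝓞 K) →*₀ ℂ) → ℂ → ℂ,
      -- the L-functions
      (∀ (𝔣 : Ideal (𝓞 K)) (ψ : Ideal (𝓞 K) →*₀ ℂ), 𝔣 ≠ ⊤ → IsPrimitive 𝔣 ψ →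
        IsL ψ (L ψ) ∧
        ∀ (k : Type) [Field k] [NumberField k] [Algebra k K]
          (E : Type) [Field E] [NumberField E] [Algebra k E] [IsGalois k E]
          (V : Type) [AddCommGroup V] [Module ℂ V] [FiniteDimensional ℂ V]
          (ρ : Representation ℂ (E ≃ₐ[k] E) V), Attached ψ ρ → IsArtinL ρ (L ψ)) ∧
      -- the family consists of the characters of the narrow ray class group
      (∀ 𝔮 : Ideal (𝓞 K), 𝔮 ≠ ⊥ → (family 𝔮).Finite ∧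
        ∀ χ : Ideal (𝓞 K) →*₀ ℂ, IsRayClassChar 𝔮 χ →
          (∃ x : 𝓞 K, x ≠ 0 ∧ TotPos x ∧ IsCoprime (Ideal.span {x}) 𝔮 ∧
            χ (Ideal.span {x}) ≠ 1) →
          ∃! ψ : Ideal (𝓞 K) →*₀ ℂ, ψ ∈ family 𝔮 ∧ ∀ 𝔞, IsCoprime 𝔞 𝔮 → ψ 𝔞 = χ 𝔞) ∧
      -- moduli for which the units occupy few residue classes
      (∀ δ B : ℝ, 0 < δ → ∃ 𝔮 : Ideal (𝓞 K), IsSplit 𝔮 B ∧ B ≤ (Ideal.absNorm 𝔮 : ℝ) ∧
        (unitClasses 𝔮 : ℝ) ≤ (Ideal.absNorm 𝔮 : ℝ) ^ δ ∧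
        ∀ ψ ∈ family 𝔮, ∀ σ : K ≃+* K, σ ≠ RingEquiv.refl K →
          ∃ 𝔞 : Ideal (𝓞 K), ψ (conj σ 𝔞) ≠ ψ 𝔞) ∧
      -- the distinct zeros of all the functions together
      (∀ θ h ε η : ℝ, 0 < θ → θ ≤ 1 → 0 < ε → ε < h → h ≤ 1 → 0 < η →
        ∃ δ X₀ : ℝ, 0 < δ ∧ Holds K L δ X₀ η h θ ε) :=
  ⟨Pool.Agent.N784.AD.exists_field, fun K _ _ =>
    ⟨Pool.Agent.Y773.IQ.LL K, isL_LL, chars, moduli, fun θ h ε η hθ0 hθ1 hε hεh hh1 hη =>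
      holds_of θ h ε η hθ0 hθ1 (hε.trans hεh) hh1 hε hεh hη⟩⟩

end Pool.Agent.Results.MP_0f5a55_nt.DistinctZerosOfUnions
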