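import Pool.Agent.Y762.FinJ

/-!
# Simple zeros of all the Artin L-functions of an abelian field: every modulus, no average over fields

Let `q ≥ 1`, `G = (ℤ/q)ˣ = Gal(ℚ(ζ_q)/ℚ)`, `H` a subgroup of `G` of order `m` and `F` the field fixed
by `H`, an abelian field of degree `φ(q)/m`; by Kronecker and Weber every abelian field is of this
form. The irreducible characters of `Gal(F/ℚ)` are the Dirichlet characters `χ` modulo `q` which are
trivial on `H`, and `L(s, χ, F/ℚ) = L(s, χ*)`, where `χ*` is the primitive character inducing `χ`. More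
generally we consider the characters `χ` which extend a given character `θ` of `H`; the product of
their L-functions is the Artin L-function `L(s, θ, ℚ(ζ_q)/F)`, for `θ = 1` the zeta function of `F`.

Linear independence of the ordinates of the critical zeros of all the L-functions of `F` implies that
all these zeros are simple. We prove, for *every* modulus `q` and every `H` (no average over `q` or over
the fields is taken) and without any hypothesis, for `T ≥ C (1 + √(log q) + (m - 1) (1 + log q)²)`: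

1. if `m ≤ (q T) ^ ζ`, then of the zeros of the `L(s, χ*)`, `χ|H = θ`, with `0 < Re s < 1`,
   `T < Im s ≤ 2T`, counted with multiplicity, at least 67.25 per cent are simple zeros of their
   `L(s, χ*)` and on the critical line, and at least 83.625 per cent are distinct zeros of their
   `L(s, χ*)`;
2. if `m ≤ (q T) ^ a`, where `a < 1` is arbitrary, and the conductors of the `χ` are not much smaller
   than `q` on average, the same is true of the proportions `2 - c(1-a) - ε` of simple zeros on the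
   line and `(2j + 1 - c(1-a) - ε) / (j (j+1))` of distinct zeros, for each `j ≥ 1`, with
   `c(h) = h/2 + cot(h/√2)/√2`.

For `m = 1` the field is `F = ℚ(ζ_q)`, and `T ≥ C (1 + √(log q))` is allowed. The starting results on
this page (`CommonZerosOfPairs`, `CommonZerosTwist`, `DegreeFour6725`) are about averages over all
moduli or all primitive characters of growing conductor; they say nothing about a single field.

The mathematics is in the starting modules `Pool.Agent.Y762` (and `Pool.Agent.TH243.CYC`,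
`Pool.Agent.H385R2`), whose final theorems were not used by any starting result: a trace inequality
for the zeros weighted by test functions of Montgomery-Taylor type (no hypothesis on zeros off the
line), the explicit formula with a Gaussian weight for every L-function of the family, and the
orthogonality relations for the characters extending `θ`: the off-diagonal terms `n' ≡ h n`
modulo `q`, `h ∈ H`, are counted trivially. Glue (Artin L-functions, characters `θ` of `H`, products)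
by helper755.
-/

open Complex NumberField Filter Topology

set_option autoImplicit false

namespace Pool.Agent.Results.MP_0f5a55_nt.SimpleZerosEveryAbelianField

section artin

variable {E : Type} [Field E] [NumberField E] {V : Type} [AddCommGroup V] [Module ℂ V]

/-- The inertia group of the prime ideal `P` of the ring of integers of `E` in `Gal(E/ℚ)`. -/
def inertia (P : Ideal (𝓞 E)) : Set (E ≃ₐ[ℚ] E) :=
  {τ | ∀ x y : 𝓞 E, (y : E) = τ (x : E) → y - x ∈ P}

/-- `σ` is a Frobenius element at the prime ideal `P` above `p`: `σ x ≡ x^p mod P`. -/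
def IsFrob (p : ℕ) (P : Ideal (𝓞 E)) (σ : E ≃ₐ[ℚ] E) : Prop :=
  P.IsPrime ∧ (p : 𝓞 E) ∈ P ∧ ∀ x y : 𝓞 E, (y : E) = σ (x : E) → y - x ^ p ∈ P

/-- The projection of `V` onto the subspace of the vectors fixed by the inertia group of `P`:
the average of `ρ τ` over the inertia group. -/
noncomputable def invProj (ρ : Representation ℂ (E ≃ₐ[ℚ] E) V) (P : Ideal (𝓞 E)) : V →ₗ[ℂ] V :=
  ((inertia P).ncard : ℂ)⁻¹ • ∑ᶠ τ ∈ inertia P, ρ τ

/-- `det(1 - x ρ(σ) | V^I)`, where `I` is the inertia group of `P`. -/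
noncomputable def eulerPoly (ρ : Representation ℂ (E ≃ₐ[ℚ] E) V) (P : Ideal (𝓞 E))
    (σ : E ≃ₐ[ℚ] E) (x : ℂ) : ℂ :=
  LinearMap.det (LinearMap.id - x • (ρ σ ∘ₗ invProj ρ P))

/-- `ρ` is attached to the finite set `S` of Dirichlet characters modulo `q`: its Euler factor at
every prime `p` is the product over the `χ` in `S` of `(1 - χ*(p) p^(-s))⁻¹`, where `χ*` is the
primitive character inducing `χ`. -/
def Attached {q : ℕ} (S : Finset (DirichletCharacter ℂ q)) (ρ : Representation ℂ (E ≃ₐ[ℚ] E) V) :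
    Prop :=
  ∀ p : ℕ, p.Prime → ∀ (P : Ideal (𝓞 E)) (σ : E ≃ₐ[ℚ] E), IsFrob p P σ →
    ∀ x : ℂ, eulerPoly ρ P σ x =
      ∏ χ ∈ S, (1 - χ.primitiveCharacter (p : ZMod χ.conductor) * x)

/-- `F` is the Artin L-function `L(s, ρ, E/ℚ)`: it is holomorphic for `s ≠ 1`, and for `Re s > 1` it
is the product of `det(1 - p^(-s) ρ(Frob_p) | V^(I_p))⁻¹` over all primes `p` (for every choice of
the primes above the `p` and of the Frobenius elements). -/
def IsArtinL (ρ : Representation ℂ (E ≃ₐ[ℚ] E) V) (F : ℂ → ℂ) : Prop :=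
  (∀ s : ℂ, s ≠ 1 → DifferentiableAt ℂ F s) ∧
    ∀ (P : Nat.Primes → Ideal (𝓞 E)) (σ : Nat.Primes → (E ≃ₐ[ℚ] E)),
    (∀ p : Nat.Primes, IsFrob p (P p) (σ p)) → ∀ s : ℂ, 1 < s.re →
      HasProd (fun p : Nat.Primes =>
        (eulerPoly ρ (P p) (σ p) (((p : ℕ) : ℂ) ^ (-s)))⁻¹) (F s)

end artin

/-- The L-function `L(s, χ*)` of the primitive character `χ*` inducing `χ`. -/
noncomputable def L1 {q : ℕ} [NeZero q] (χ : DirichletCharacter ℂ q) : ℂ → ℂ :=
  have : NeZero χ.conductor := ⟨χ.conductor_ne_zero⟩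
  DirichletCharacter.LFunction χ.primitiveCharacter

/-- The product of the `L(s, χ*)` over the `χ` in `S`. -/
noncomputable def LS {q : ℕ} [NeZero q] (S : Finset (DirichletCharacter ℂ q)) : ℂ → ℂ :=
  fun s => ∏ χ ∈ S, L1 χ s

open Classical in
/-- The Dirichlet characters modulo `q` which extend the character `θ` of the subgroup `H` of
`(ℤ/q)ˣ`. -/
noncomputable def extensions {q : ℕ} [NeZero q] (H : Subgroup (ZMod q)ˣ) (θ : H →* ℂˣ) :
    Finset (DirichletCharacter ℂ q) :=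
  Finset.univ.filter fun χ => ∀ h : H, χ (((h : (ZMod q)ˣ)) : ZMod q) = θ h

/-- The zeros of `F` in the open critical strip with ordinate in `(T, 2T]`. -/
def zeros (F : ℂ → ℂ) (T : ℝ) : Set ℂ :=
  {s : ℂ | 0 < s.re ∧ s.re < 1 ∧ T < s.im ∧ s.im ≤ 2 * T ∧ F s = 0}

/-- The number of these zeros, counted with multiplicity. -/
noncomputable def N (F : ℂ → ℂ) (T : ℝ) : ℕ := ∑ᶠ s ∈ zeros F T, analyticOrderNatAt F s

/-- The number of those of them that lie on the critical line, counted with multiplicity. -/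
noncomputable def Nc (F : ℂ → ℂ) (T : ℝ) : ℕ :=
  ∑ᶠ s ∈ {s : ℂ | s ∈ zeros F T ∧ s.re = 1 / 2}, analyticOrderNatAt F s

/-- The number of those of them that are simple and lie on the critical line. -/
noncomputable def Ns (F : ℂ → ℂ) (T : ℝ) : ℕ :=
  {s : ℂ | s ∈ zeros F T ∧ s.re = 1 / 2 ∧ analyticOrderNatAt F s = 1}.ncard

/-- The number of the distinct ones. -/
noncomputable def Nd (F : ℂ → ℂ) (T : ℝ) : ℕ := (zeros F T).ncard

/-- `c(h) = h/2 + cot(h/√2)/√2`; for instance `c(1) = 1.3274...`. -/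
noncomputable def c (h : ℝ) : ℝ := h / 2 + Real.cot (h / Real.sqrt 2) / Real.sqrt 2

/-! ### Translations -/

section lemmas

variable {q : ℕ} [NeZero q]

lemma L1_eq (χ : DirichletCharacter ℂ q) : L1 χ = Pool.Agent.TH243.CYC.LP χ := by
  unfold L1 Pool.Agent.TH243.CYC.LP
  have : NeZero χ.conductor := ⟨χ.conductor_ne_zero⟩
  rw [Pool.Agent.TH243.CYC.LF_eq]

lemma zeros_eq (χ : DirichletCharacter ℂ q) {T : ℝ} (hT : 0 ≤ T) :
    zeros (L1 χ) T = H370.zset (DirichletCharacter.LFunction χ) T (2 * T) := by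
  have h1 := H385.LF_zset_eq q (NeZero.pos q) χ T (2 * T) hT
  rw [Pool.Agent.TH243.CYC.LF_eq] at h1
  rw [h1, L1_eq]
  rfl

lemma N_eq (χ : DirichletCharacter ℂ q) {T : ℝ} (hT : 0 ≤ T) :
    N (L1 χ) T = H370.NN (DirichletCharacter.LFunction χ) T (2 * T) := by
  rw [(Pool.Agent.TH243.CYC.counts χ T (2 * T) hT).1, L1_eq]
  rfl

lemma Ns_eq (χ : DirichletCharacter ℂ q) {T : ℝ} (hT : 0 ≤ T) :
    Ns (L1 χ) T = H370.Ns (DirichletCharacter.LFunction χ) T (2 * T) := by
  rw [(Pool.Agent.TH243.CYC.counts χ T (2 * T) hT).2.1, L1_eq]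
  rfl

lemma Nd_eq (χ : DirichletCharacter ℂ q) {T : ℝ} (hT : 0 ≤ T) :
    Nd (L1 χ) T = H370.Nd (DirichletCharacter.LFunction χ) T (2 * T) := by
  rw [(Pool.Agent.TH243.CYC.counts χ T (2 * T) hT).2.2, L1_eq]
  rfl

lemma zset_finite (χ : DirichletCharacter ℂ q) (T1 T2 : ℝ) (h : 1 ≤ T1) :
    (H370.zset (L1 χ) T1 T2).Finite := by
  have h1 := H385.LF_zset_eq q (NeZero.pos q) χ T1 T2 (by linarith)
  rw [Pool.Agent.TH243.CYC.LF_eq] at h1
  rw [L1_eq]
  change (H370.zset (H385.LF χ.conductor χ.primitiveCharacter) T1 T2).Finite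
  rw [← h1]
  exact Pool.Agent.TH243.CYC.finite_zset χ T1 T2 h

lemma zeros_finite (χ : DirichletCharacter ℂ q) {T : ℝ} (hT : 1 ≤ T) : (zeros (L1 χ) T).Finite :=
  zset_finite χ T (2 * T) hT

lemma L1_differentiable (χ : DirichletCharacter ℂ q) (s : ℂ) (hs : s ≠ 1) :
    DifferentiableAt ℂ (L1 χ) s := by
  unfold L1
  have : NeZero χ.conductor := ⟨χ.conductor_ne_zero⟩
  exact DirichletCharacter.differentiableAt_LFunction _ s (Or.inl hs)

lemma L1_analyticAt (χ : DirichletCharacter ℂ q) (s : ℂ) (hs : s ≠ 1) :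
    AnalyticAt ℂ (L1 χ) s := by
  have h2 : DifferentiableOn ℂ (L1 χ) {1}ᶜ := fun z hz =>
    (L1_differentiable χ z hz).differentiableWithinAt
  exact h2.analyticAt (isOpen_compl_singleton.mem_nhds hs)

/-- the L-functions do not vanish identically near a point of the critical strip -/
lemma order_ne_top (χ : DirichletCharacter ℂ q) {T : ℝ} (hT : 1 ≤ T) {s : ℂ} (h0 : 0 < s.re)
    (h1 : s.re < 1) (h2 : T < s.im) : analyticOrderAt (L1 χ) s ≠ ⊤ := by
  intro htop
  rw [analyticOrderAt_eq_top] at htop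
  have hopen : IsOpen {z : ℂ | 0 < z.re ∧ z.re < 1 ∧ T < z.im ∧ z.im < s.im + 1} := by
    refine ((isOpen_lt continuous_const Complex.continuous_re).inter
      ((isOpen_lt Complex.continuous_re continuous_const).inter
      ((isOpen_lt continuous_const Complex.continuous_im).inter
      (isOpen_lt Complex.continuous_im continuous_const))))
  have hmem : H370.zset (L1 χ) T (s.im + 1) ∈ 𝓝 s := by
    filter_upwards [htop, hopen.mem_nhds ⟨h0, h1, h2, by linarith⟩] with z hz1 hz2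
    exact ⟨hz2.1, hz2.2.1, hz2.2.2.1, hz2.2.2.2.le, hz1⟩
  exact (infinite_of_mem_nhds s hmem) (zset_finite χ T (s.im + 1) hT)

lemma LS_order (S : Finset (DirichletCharacter ℂ q)) {T : ℝ} (hT : 1 ≤ T) {s : ℂ} (h0 : 0 < s.re)
    (h1 : s.re < 1) (h2 : T < s.im) :
    analyticOrderAt (LS S) s ≠ ⊤ ∧
    analyticOrderNatAt (LS S) s = ∑ χ ∈ S, analyticOrderNatAt (L1 χ) s ∧
    AnalyticAt ℂ (LS S) s := by
  classical
  have hs : s ≠ 1 := by
    rintro rfl
    simp at h2
    linarith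
  induction S using Finset.induction_on with
  | empty =>
    have e : LS (∅ : Finset (DirichletCharacter ℂ q)) = fun _ => 1 := by
      funext z; simp [LS]
    have h3 : analyticOrderAt (fun _ : ℂ => (1 : ℂ)) s = 0 :=
      analyticAt_const.analyticOrderAt_eq_zero.mpr one_ne_zero
    rw [e]
    refine ⟨by rw [h3]; exact ENat.zero_ne_top, ?_, analyticAt_const⟩
    unfold analyticOrderNatAt
    rw [h3]
    simp
  | insert χ S hχ ih =>
    obtain ⟨i1, i2, i3⟩ := ih
    have e : LS (insert χ S) = L1 χ * LS S := by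
      funext z
      simp only [LS, Finset.prod_insert hχ, Pi.mul_apply]
    have a1 := L1_analyticAt χ s hs
    have a2 := order_ne_top χ hT h0 h1 h2
    have a3 : analyticOrderAt (L1 χ * LS S) s = analyticOrderAt (L1 χ) s + analyticOrderAt (LS S) s :=
      analyticOrderAt_mul a1 i3
    rw [e]
    refine ⟨?_, ?_, a1.mul i3⟩
    · rw [a3]
      intro h
      rcases ENat.add_eq_top.mp h with h | h
      · exact a2 h
      · exact i1 h
    · rw [Finset.sum_insert hχ, ← i2]
      unfold analyticOrderNatAt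
      rw [a3, ENat.toNat_add a2 i1]

lemma zeros_LS (S : Finset (DirichletCharacter ℂ q)) (T : ℝ) :
    zeros (LS S) T = ⋃ χ ∈ S, zeros (L1 χ) T := by
  ext s
  simp only [zeros, LS, Set.mem_ofPred_eq, Set.mem_iUnion, Finset.prod_eq_zero_iff, exists_prop]
  constructor
  · rintro ⟨h1, h2, h3, h4, χ, hχ, h5⟩
    exact ⟨χ, hχ, h1, h2, h3, h4, h5⟩
  · rintro ⟨χ, hχ, h1, h2, h3, h4, h5⟩
    exact ⟨h1, h2, h3, h4, χ, hχ, h5⟩

lemma zeros_LS_finite (S : Finset (DirichletCharacter ℂ q)) {T : ℝ} (hT : 1 ≤ T) :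
    (zeros (LS S) T).Finite := by
  rw [zeros_LS]
  exact Set.Finite.biUnion S.finite_toSet fun χ _ => zeros_finite χ hT

/-- sums of orders over the part of the zeros in a set `A` -/
lemma sum_orders (S : Finset (DirichletCharacter ℂ q)) {T : ℝ} (hT : 1 ≤ T) (A : Set ℂ) :
    ∑ᶠ s ∈ {s : ℂ | s ∈ zeros (LS S) T ∧ s ∈ A}, analyticOrderNatAt (LS S) s =
      ∑ χ ∈ S, ∑ᶠ s ∈ {s : ℂ | s ∈ zeros (L1 χ) T ∧ s ∈ A}, analyticOrderNatAt (L1 χ) s := by
  classical
  have hfin : {s : ℂ | s ∈ zeros (LS S) T ∧ s ∈ A}.Finite :=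
    (zeros_LS_finite S hT).subset fun s hs => hs.1
  have key : ∀ χ ∈ S, ∑ᶠ s ∈ {s : ℂ | s ∈ zeros (L1 χ) T ∧ s ∈ A}, analyticOrderNatAt (L1 χ) s =
      ∑ s ∈ hfin.toFinset, analyticOrderNatAt (L1 χ) s := by
    intro χ hχ
    refine finsum_mem_eq_sum_of_inter_support_eq _ ?_
    ext s
    simp only [Set.mem_inter_iff, Function.mem_support, Set.Finite.coe_toFinset,
      Set.mem_ofPred_eq]
    constructor
    · rintro ⟨⟨h1, h2⟩, h3⟩
      refine ⟨⟨?_, h2⟩, h3⟩
      rw [zeros_LS]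
      exact Set.mem_biUnion hχ h1
    · rintro ⟨⟨h1, h2⟩, h3⟩
      refine ⟨⟨⟨h1.1, h1.2.1, h1.2.2.1, h1.2.2.2.1, ?_⟩, h2⟩, h3⟩
      by_contra hne
      have hs : s ≠ 1 := by
        rintro rfl
        have := h1.2.2.1
        simp at this
        linarith
      apply h3
      unfold analyticOrderNatAt
      rw [(L1_analyticAt χ s hs).analyticOrderAt_eq_zero.mpr hne]
      rfl
  rw [Finset.sum_congr rfl key, Finset.sum_comm, finsum_mem_eq_finite_toFinset_sum _ hfin]
  refine Finset.sum_congr rfl fun s hs => ?_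
  have h1 : s ∈ zeros (LS S) T := ((Set.Finite.mem_toFinset hfin).mp hs).1
  exact (LS_order S hT h1.1 h1.2.1 h1.2.2.1).2.1

lemma N_LS (S : Finset (DirichletCharacter ℂ q)) {T : ℝ} (hT : 1 ≤ T) :
    N (LS S) T = ∑ χ ∈ S, N (L1 χ) T := by
  have h := sum_orders S hT Set.univ
  unfold N
  simpa only [Set.mem_univ, and_true, Set.ofPred_mem_eq] using h

lemma Nc_LS (S : Finset (DirichletCharacter ℂ q)) {T : ℝ} (hT : 1 ≤ T) :
    Nc (LS S) T = ∑ χ ∈ S, Nc (L1 χ) T :=
  sum_orders S hT {s : ℂ | s.re = 1 / 2}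

lemma Ns_le_Nc (χ : DirichletCharacter ℂ q) {T : ℝ} (hT : 1 ≤ T) : Ns (L1 χ) T ≤ Nc (L1 χ) T := by
  classical
  have hfin : {s : ℂ | s ∈ zeros (L1 χ) T ∧ s.re = 1 / 2}.Finite :=
    (zeros_finite χ hT).subset fun s hs => hs.1
  have hfin' : {s : ℂ | s ∈ zeros (L1 χ) T ∧ s.re = 1 / 2 ∧
      analyticOrderNatAt (L1 χ) s = 1}.Finite :=
    (zeros_finite χ hT).subset fun s hs => hs.1
  unfold Ns Nc
  rw [finsum_mem_eq_finite_toFinset_sum _ hfin, Set.ncard_eq_toFinset_card _ hfin',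
    Finset.card_eq_sum_ones]
  calc ∑ _s ∈ hfin'.toFinset, 1 ≤ ∑ s ∈ hfin'.toFinset, analyticOrderNatAt (L1 χ) s := by
        refine Finset.sum_le_sum fun s hs => ?_
        rw [((Set.Finite.mem_toFinset hfin').mp hs).2.2]
    _ ≤ ∑ s ∈ hfin.toFinset, analyticOrderNatAt (L1 χ) s := by
        refine Finset.sum_le_sum_of_subset fun s hs => ?_
        rw [Set.Finite.mem_toFinset] at hs ⊢
        exact ⟨hs.1, hs.2.1⟩

lemma isArtinL (S : Finset (DirichletCharacter ℂ q)) {E : Type} [Field E] [NumberField E]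
    {V : Type} [AddCommGroup V] [Module ℂ V] (ρ : Representation ℂ (E ≃ₐ[ℚ] E) V)
    (hρ : Attached S ρ) : IsArtinL ρ (LS S) := by
  refine ⟨fun s hs => ?_, fun P σ hσ s hs => ?_⟩
  · exact DifferentiableAt.fun_finsetProd fun χ _ => L1_differentiable χ s hs
  · have h1 : ∀ χ ∈ S, HasProd (fun p : Nat.Primes =>
        (1 - χ.primitiveCharacter ((p : ℕ) : ZMod χ.conductor) * ((p : ℕ) : ℂ) ^ (-s))⁻¹)
        (L1 χ s) := by
      intro χ _
      have : NeZero χ.conductor := ⟨χ.conductor_ne_zero⟩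
      have h := DirichletCharacter.LSeries_eulerProduct_hasProd χ.primitiveCharacter hs
      have e : L1 χ s = LSeries (fun n : ℕ => χ.primitiveCharacter (n : ZMod χ.conductor)) s := by
        unfold L1
        exact DirichletCharacter.LFunction_eq_LSeries _ hs
      rw [e]
      exact h
    have h2 := hasProd_prod h1
    have e2 : (fun p : Nat.Primes => (eulerPoly ρ (P p) (σ p) (((p : ℕ) : ℂ) ^ (-s)))⁻¹) =
        fun p : Nat.Primes => ∏ χ ∈ S,
          (1 - χ.primitiveCharacter ((p : ℕ) : ZMod χ.conductor) * ((p : ℕ) : ℂ) ^ (-s))⁻¹ := by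
      funext p
      rw [hρ p p.2 (P p) (σ p) (hσ p), Finset.prod_inv_distrib]
    rw [e2]
    exact h2

/-- the extensions of a character of `H` form a coset -/
lemma extensions_eq (H : Subgroup (ZMod q)ˣ) (θ : H →* ℂˣ) :
    ∃ χ₁ : DirichletCharacter ℂ q, extensions H θ = Pool.Agent.Y762.coset H χ₁ := by
  classical
  obtain ⟨ψ, hψ⟩ := MonoidHom.domRestrict_surjective ℂ H θ
  refine ⟨MulChar.ofUnitHom ψ, ?_⟩
  have h1 : ∀ h : H, (MulChar.ofUnitHom ψ : DirichletCharacter ℂ q)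
      (((h : (ZMod q)ˣ)) : ZMod q) = θ h := by
    intro h
    rw [MulChar.ofUnitHom_coe, ← hψ]
    rfl
  ext χ
  rw [Pool.Agent.Y762.mem_coset]
  simp only [extensions, Finset.mem_filter, Finset.mem_univ, true_and]
  constructor
  · intro h x hx
    rw [h ⟨x, hx⟩, h1 ⟨x, hx⟩]
  · intro h x
    rw [h x x.2, h1 x]

end lemmas

/-- **Main theorem.** `extensions H θ` is the set of the Dirichlet characters modulo `q` which extend
the character `θ` of the subgroup `H` of `(ℤ/q)ˣ`, `L1 χ` is the L-function of the primitive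
character inducing `χ`, and `LS S` is the product of the `L1 χ`, `χ ∈ S`.

(A) `LS S` is the Artin L-function of every representation of the Galois group of a number field
over `ℚ` whose Euler factors are the products of those of the `χ ∈ S`. There are `φ(q) / |H|`
extensions of `θ`. The number of zeros of `LS S` in the critical strip with `T < Im s ≤ 2T` is the
sum of those of the `L1 χ`; the number on the critical line is at least the sum of the numbers of
simple zeros of the `L1 χ` on the critical line.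

(B) Subgroups of order at most `(qT) ^ ζ`: 67.25 per cent simple zeros on the critical line.

(C) Subgroups of order at most `(qT) ^ a`, `a < 1`. -/
theorem result :
    (∀ (q : ℕ) [NeZero q] (S : Finset (DirichletCharacter ℂ q)),
      (∀ (E : Type) [Field E] [NumberField E] [IsGalois ℚ E]
        (V : Type) [AddCommGroup V] [Module ℂ V] [FiniteDimensional ℂ V]
        (ρ : Representation ℂ (E ≃ₐ[ℚ] E) V), Attached S ρ → IsArtinL ρ (LS S)) ∧
      (∀ T : ℝ, 1 ≤ T → (zeros (LS S) T).Finite ∧ N (LS S) T = ∑ χ ∈ S, N (L1 χ) T ∧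
        ∑ χ ∈ S, Ns (L1 χ) T ≤ Nc (LS S) T) ∧
      ∀ (H : Subgroup (ZMod q)ˣ) (θ : H →* ℂˣ),
        (extensions H θ).card * Nat.card H = Nat.totient q) ∧
    (∃ C ζ : ℝ, 0 < C ∧ 0 < ζ ∧ ∀ (q : ℕ) [NeZero q] (H : Subgroup (ZMod q)ˣ) (θ : H →* ℂˣ) (T : ℝ),
      C * (1 + √(Real.log q) + ((Nat.card H : ℝ) - 1) * (1 + Real.log q) ^ 2) ≤ T →
      (Nat.card H : ℝ) ≤ (q * T) ^ ζ →
      1 ≤ T ∧
      0.6725 * (N (LS (extensions H θ)) T : ℝ) ≤ ∑ χ ∈ extensions H θ, (Ns (L1 χ) T : ℝ) ∧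
      0.83625 * (N (LS (extensions H θ)) T : ℝ) ≤ ∑ χ ∈ extensions H θ, (Nd (L1 χ) T : ℝ) ∧
      0.99 * (T / (2 * Real.pi) * Real.log (q * T)) * ((extensions H θ).card : ℝ) ≤
        N (LS (extensions H θ)) T) ∧
    (∀ (a ε : ℝ) (j : ℕ), 0 ≤ a → a < 1 → 0 < ε → 1 ≤ j → ∃ C ζ : ℝ, 0 < C ∧ 0 < ζ ∧
      ∀ (q : ℕ) [NeZero q] (H : Subgroup (ZMod q)ˣ) (θ : H →* ℂˣ) (T : ℝ),
      C * (1 + √(Real.log q) + ((Nat.card H : ℝ) - 1) * (1 + Real.log q) ^ 2) ≤ T →
      (Nat.card H : ℝ) ≤ (q * T) ^ a →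
      ((Nat.card H : ℝ) ≤ (q * T) ^ ζ ∨
        ∑ χ ∈ extensions H θ, (Real.log q - Real.log χ.conductor) ≤
          ζ * Real.log (q * T) * ((extensions H θ).card : ℝ)) →
      1 ≤ T ∧
      (2 - c (1 - a) - ε) * (N (LS (extensions H θ)) T : ℝ) ≤
        ∑ χ ∈ extensions H θ, (Ns (L1 χ) T : ℝ) ∧
      (2 * j + 1 - c (1 - a) - ε) * (N (LS (extensions H θ)) T : ℝ) ≤
        j * (j + 1) * ∑ χ ∈ extensions H θ, (Nd (L1 χ) T : ℝ) ∧
      (1 - ε) * (T / (2 * Real.pi) * Real.log (q * T)) * ((extensions H θ).card : ℝ) ≤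
        N (LS (extensions H θ)) T) := by
  classical
  refine ⟨?_, ?_, ?_⟩
  · intro q _ S
    refine ⟨fun E _ _ _ V _ _ _ ρ hρ => isArtinL S ρ hρ, fun T hT => ⟨zeros_LS_finite S hT,
      N_LS S hT, ?_⟩, fun H θ => ?_⟩
    · rw [Nc_LS S hT]
      exact Finset.sum_le_sum fun χ _ => Ns_le_Nc χ hT
    · obtain ⟨χ₁, h1⟩ := extensions_eq H θ
      rw [h1]
      exact Pool.Agent.Y762.card_coset H χ₁
  · obtain ⟨C, ζ, hC, hζ, h⟩ := Pool.Agent.Y762.coset_small
    refine ⟨C, ζ, by linarith, hζ, ?_⟩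
    intro q _ H θ T hT hm
    have hT1 : 1 ≤ T := hC.trans (Pool.Agent.Y762.one_le_of_height hC q H hT)
    have hT0 : 0 ≤ T := by linarith
    obtain ⟨χ₁, h1⟩ := extensions_eq H θ
    obtain ⟨r1, r2, r3⟩ := h q H χ₁ T hT hm
    have eN : (N (LS (extensions H θ)) T : ℝ) = ∑ χ ∈ Pool.Agent.Y762.coset H χ₁,
        (H370.NN (DirichletCharacter.LFunction χ) T (2 * T) : ℝ) := by
      rw [N_LS _ hT1, h1]
      push_cast
      exact Finset.sum_congr rfl fun χ _ => by rw [N_eq χ hT0]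
    have eS : ∑ χ ∈ extensions H θ, (Ns (L1 χ) T : ℝ) = ∑ χ ∈ Pool.Agent.Y762.coset H χ₁,
        (H370.Ns (DirichletCharacter.LFunction χ) T (2 * T) : ℝ) := by
      rw [h1]
      exact Finset.sum_congr rfl fun χ _ => by rw [Ns_eq χ hT0]
    have eD : ∑ χ ∈ extensions H θ, (Nd (L1 χ) T : ℝ) = ∑ χ ∈ Pool.Agent.Y762.coset H χ₁,
        (H370.Nd (DirichletCharacter.LFunction χ) T (2 * T) : ℝ) := by
      rw [h1]
      exact Finset.sum_congr rfl fun χ _ => by rw [Nd_eq χ hT0]
    rw [eN, eS, eD, h1]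
    refine ⟨hT1, ?_, ?_, ?_⟩
    · norm_num at r1 ⊢
      exact r1
    · norm_num at r2 ⊢
      exact r2
    · norm_num at r3 ⊢
      exact r3
  · intro a ε j ha0 ha1 hε hj
    obtain ⟨C1, ζ1, hC1, hζ1, h1⟩ := Pool.Agent.Y762.coset_L a ε ha0 ha1 hε
    obtain ⟨C2, ζ2, hC2, hζ2, h2⟩ := Pool.Agent.Y762.coset_j j hj a ε ha0 ha1 hε
    refine ⟨max C1 C2, min ζ1 ζ2, lt_max_of_lt_left (by linarith), lt_min hζ1 hζ2, ?_⟩
    intro q _ H θ T hT hm hcase
    have hq1 : (1 : ℝ) ≤ q := by exact_mod_cast (NeZero.one_le : 1 ≤ q)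
    have hX : 0 ≤ 1 + √(Real.log q) + ((Nat.card H : ℝ) - 1) * (1 + Real.log q) ^ 2 := by
      have hm1 : (1 : ℝ) ≤ (Nat.card H : ℝ) := by exact_mod_cast Nat.card_pos
      have h3 : 0 ≤ (Nat.card H : ℝ) - 1 := by linarith
      positivity
    have hT1' : C1 * (1 + √(Real.log q) + ((Nat.card H : ℝ) - 1) * (1 + Real.log q) ^ 2) ≤ T :=
      (mul_le_mul_of_nonneg_right (le_max_left _ _) hX).trans hT
    have hT2' : C2 * (1 + √(Real.log q) + ((Nat.card H : ℝ) - 1) * (1 + Real.log q) ^ 2) ≤ T :=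
      (mul_le_mul_of_nonneg_right (le_max_right _ _) hX).trans hT
    have hT1 : 1 ≤ T := hC1.trans (Pool.Agent.Y762.one_le_of_height hC1 q H hT1')
    have hT0 : 0 ≤ T := by linarith
    have hqT : 1 ≤ (q : ℝ) * T := one_le_mul_of_one_le_of_one_le hq1 hT1
    have hlog : 0 ≤ Real.log (q * T) := Real.log_nonneg hqT
    obtain ⟨χ₁, he⟩ := extensions_eq H θ
    rw [he] at hcase
    have hc1 : (Nat.card H : ℝ) ≤ (q * T) ^ ζ1 ∨
        ∑ χ ∈ Pool.Agent.Y762.coset H χ₁, (Real.log q - Real.log χ.conductor) ≤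
          ζ1 * Real.log (q * T) * ((Pool.Agent.Y762.coset H χ₁).card : ℝ) := by
      rcases hcase with h | h
      · exact Or.inl (h.trans (Real.rpow_le_rpow_of_exponent_le hqT (min_le_left _ _)))
      · refine Or.inr (h.trans ?_)
        have := min_le_left ζ1 ζ2
        gcongr
    have hc2 : (Nat.card H : ℝ) ≤ (q * T) ^ ζ2 ∨
        ∑ χ ∈ Pool.Agent.Y762.coset H χ₁, (Real.log q - Real.log χ.conductor) ≤
          ζ2 * Real.log (q * T) * ((Pool.Agent.Y762.coset H χ₁).card : ℝ) := by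
      rcases hcase with h | h
      · exact Or.inl (h.trans (Real.rpow_le_rpow_of_exponent_le hqT (min_le_right _ _)))
      · refine Or.inr (h.trans ?_)
        have := min_le_right ζ1 ζ2
        gcongr
    obtain ⟨r1, r2, r3⟩ := h1 q H χ₁ T hT1' hm hc1
    obtain ⟨s1, s2⟩ := h2 q H χ₁ T hT2' hm hc2
    have eN : (N (LS (extensions H θ)) T : ℝ) = ∑ χ ∈ Pool.Agent.Y762.coset H χ₁,
        (H370.NN (DirichletCharacter.LFunction χ) T (2 * T) : ℝ) := by
      rw [N_LS _ hT1, he]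
      push_cast
      exact Finset.sum_congr rfl fun χ _ => by rw [N_eq χ hT0]
    have eS : ∑ χ ∈ extensions H θ, (Ns (L1 χ) T : ℝ) = ∑ χ ∈ Pool.Agent.Y762.coset H χ₁,
        (H370.Ns (DirichletCharacter.LFunction χ) T (2 * T) : ℝ) := by
      rw [he]
      exact Finset.sum_congr rfl fun χ _ => by rw [Ns_eq χ hT0]
    have eD : ∑ χ ∈ extensions H θ, (Nd (L1 χ) T : ℝ) = ∑ χ ∈ Pool.Agent.Y762.coset H χ₁,
        (H370.Nd (DirichletCharacter.LFunction χ) T (2 * T) : ℝ) := by
      rw [he]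
      exact Finset.sum_congr rfl fun χ _ => by rw [Nd_eq χ hT0]
    rw [eN, eS, eD, he]
    have ec : c (1 - a) = Pool.Agent.Y762.cH (1 - a) := rfl
    rw [ec]
    refine ⟨hT1, ?_, ?_, s2⟩
    · refine le_trans (le_of_eq ?_) r1
      ring
    · refine le_trans (le_of_eq ?_) s1
      ring

end Pool.Agent.Results.MP_0f5a55_nt.SimpleZerosEveryAbelianField
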